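import Pool.Agent.H61.SC.Stmts

/-!
# SC, row CNF: confinement
-/

namespace Pool.SC

namespace CNF50

theorem mono {f : ℕ → ℝ} (hf : ∀ h : ℕ, 1 ≤ h → f (h + 1) ≤ f h) {m n : ℕ} (hm : 1 ≤ m)
    (hmn : m ≤ n) : f n ≤ f m := by
  induction n, hmn using Nat.le_induction with
  | base => exact le_rfl
  | succ k hk ih => exact (hf k (hm.trans hk)).trans ih

theorem pow_big {H R k : ℝ} (hH : 1 ≤ H) (hR : 0 < R) (hk : 1 ≤ k) (h : H ≤ k * R) :
    R ^ ((4 : ℝ) / 3) / R ^ 2 ≤ k * H ^ (-(2 : ℝ) / 3) ∧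
      Real.sqrt (H * R) / R ^ 2 ≤ k ^ 2 * H ^ (-(2 : ℝ) / 3) := by
  have hH0 : 0 < H := by linarith
  have hk0 : 0 < k := by linarith
  have hP : 0 < H ^ (-(2 : ℝ) / 3) := Real.rpow_pos_of_pos hH0 _
  constructor
  · have h1 : R ^ ((4 : ℝ) / 3) / R ^ 2 = R ^ (-(2 : ℝ) / 3) := by
      have h2 := Real.rpow_sub hR ((4 : ℝ) / 3) 2
      rw [Real.rpow_two] at h2
      rw [← h2]
      norm_num
    have h2 : H / k ≤ R := by
      rw [div_le_iff₀ hk0]
      linarith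
    have h3 : R ^ (-(2 : ℝ) / 3) ≤ (H / k) ^ (-(2 : ℝ) / 3) :=
      Real.rpow_le_rpow_of_nonpos (by positivity) h2 (by norm_num)
    have h4 : (H / k) ^ (-(2 : ℝ) / 3) = H ^ (-(2 : ℝ) / 3) * k ^ ((2 : ℝ) / 3) := by
      rw [Real.div_rpow hH0.le hk0.le, div_eq_mul_inv, ← Real.rpow_neg hk0.le]
      norm_num
    have h5 : k ^ ((2 : ℝ) / 3) ≤ k := by
      have h6 := Real.rpow_le_rpow_of_exponent_le hk (show (2 : ℝ) / 3 ≤ 1 by norm_num)
      rwa [Real.rpow_one] at h6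
    rw [h1]
    refine h3.trans ?_
    rw [h4, mul_comm k]
    exact mul_le_mul_of_nonneg_left h5 hP.le
  · have h1 : Real.sqrt (H * R) ≤ k * R := by
      rw [Real.sqrt_le_left (by positivity)]
      calc H * R ≤ (k * R) * R := mul_le_mul_of_nonneg_right h hR.le
        _ = k * R ^ 2 := by ring
        _ ≤ k ^ 2 * R ^ 2 := by
          refine mul_le_mul_of_nonneg_right ?_ (by positivity)
          nlinarith
        _ = (k * R) ^ 2 := by ring
    have h2 : Real.sqrt (H * R) / R ^ 2 ≤ k ^ 2 * H⁻¹ := by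
      rw [div_le_iff₀ (by positivity)]
      refine h1.trans ?_
      have h3 : k ^ 2 * H⁻¹ * R ^ 2 = (k * R) * (k * R) / H := by
        field_simp
      rw [h3, le_div_iff₀ hH0]
      exact mul_le_mul_of_nonneg_left h (by positivity)
    refine h2.trans (mul_le_mul_of_nonneg_left ?_ (by positivity))
    rw [← Real.rpow_neg_one]
    exact Real.rpow_le_rpow_of_exponent_le hH (by norm_num)

end CNF50

/-- CNF. -/
theorem cnf_thm (hT' : S_TLM) (hW' : S_WIN) (hC' : S_CVX) (hN' : S_NU) : S_CNF := by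
  intro p a b hp0 hp1 ha hab
  obtain ⟨C1, hC1, hT⟩ := hT' p a b hp0 hp1 ha hab
  obtain ⟨K, hK, C2, hC2, hW⟩ := hW' p a b hp0 hp1 ha hab
  have hK1 : (1 : ℝ) ≤ (K : ℝ) := by exact_mod_cast hK
  refine ⟨2 * C1 + C1 * (8 * K) + C2 * (8 * K) ^ 2 + C2, by positivity, 4 * K, by omega,
    fun n H Λ hn hH hΛ hlog => ?_⟩
  have hH4 : 4 ≤ H := by omega
  obtain ⟨r, hr⟩ : ∃ r, r = min (H / (4 * K)) n := ⟨_, rfl⟩
  have hr1 : 1 ≤ r := by
    rw [hr, le_min_iff]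
    refine ⟨?_, hn⟩
    rw [Nat.le_div_iff_mul_le (by omega)]
    omega
  have hrn : r ≤ n := by
    rw [hr]
    exact min_le_right _ _
  have hrH : 4 * K * r ≤ H := by
    have h1 : r ≤ H / (4 * K) := by
      rw [hr]
      exact min_le_left _ _
    calc 4 * K * r ≤ 4 * K * (H / (4 * K)) := Nat.mul_le_mul_left _ h1
      _ ≤ H := Nat.mul_div_le _ _
  have hr2 : 2 * K * r ≤ H / 2 := by
    rw [Nat.le_div_iff_mul_le (by omega)]
    calc 2 * K * r * 2 = 4 * K * r := by ring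
      _ ≤ H := hrH
  have hKr : 1 ≤ 2 * K * r := by
    have : 1 ≤ K * r := Nat.mul_le_mul hK hr1
    calc 1 ≤ K * r := this
      _ ≤ 2 * K * r := by nlinarith
  have hH2 : 1 ≤ H / 2 := hKr.trans hr2
  have hnR : (1 : ℝ) ≤ (n : ℝ) := by exact_mod_cast hn
  have hrR : (1 : ℝ) ≤ (r : ℝ) := by exact_mod_cast hr1
  have hHR : (4 : ℝ) ≤ (H : ℝ) := by exact_mod_cast hH4
  have hrnR : (r : ℝ) ≤ n := by exact_mod_cast hrn
  have hlog1 : Real.log (2 + 8 * r * (H / 2 : ℕ)) ≤ Λ ^ 2 := by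
    refine le_trans (Real.log_le_log (by positivity) ?_) hlog
    have h1 : ((H / 2 : ℕ) : ℝ) ≤ H := by exact_mod_cast Nat.div_le_self H 2
    have h2 : (r : ℝ) * ((H / 2 : ℕ) : ℝ) ≤ n * H :=
      mul_le_mul hrnR h1 (by positivity) (by positivity)
    linarith
  have e1 := (hN' p a b (H / 2) hp0 hp1 ha hab hH2).2.2 n n
  have e2 := hT r (H / 2) Λ hr1 hH2 hΛ hlog1 r r le_rfl (by omega) le_rfl (by omega)
  have e3 := hT n H Λ hn (by omega) hΛ hlog n n le_rfl (by omega) le_rfl (by omega)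
  have e4 := (hN' p a b H hp0 hp1 ha hab (by omega)).2.2 r r
  have e5 : ph p a b r r (H / 2) ≤ ph p a b r r (2 * K * r) :=
    CNF50.mono (hC' p a b r r hp0 hp1 ha hab).2.1 hKr hr2
  have e6 := hW r H hr1 (hr2.trans (Nat.div_le_self H 2))
  generalize ph p a b n n (H / 2) = x at *
  generalize ph p a b n n H = y at *
  generalize ph p a b r r (H / 2) = u at *
  generalize ph p a b r r H = v at *
  generalize ph p a b r r (2 * K * r) = w at *
  generalize nu p a b (H / 2) = ν2 at *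
  generalize nu p a b H = ν at *
  obtain ⟨N, hN⟩ : ∃ N : ℝ, N = n := ⟨_, rfl⟩
  obtain ⟨R, hR⟩ : ∃ R : ℝ, R = r := ⟨_, rfl⟩
  obtain ⟨h, hh⟩ : ∃ h : ℝ, h = H := ⟨_, rfl⟩
  rw [← hN] at e1 e3 hnR hrnR ⊢
  rw [← hR] at e2 e4 e6 hrR hrnR
  rw [← hh] at e6 hHR ⊢
  have hR0 : 0 < R := by linarith
  have hN0 : 0 < N := by linarith
  have hmain : x - y ≤ N ^ 2 * (C2 * (Real.sqrt (h * R) / R ^ 2)) +
      N ^ 2 * (C1 * Λ * (R ^ ((4 : ℝ) / 3) / R ^ 2)) + C1 * N ^ ((4 : ℝ) / 3) * Λ := by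
    have f1 : (x - y) * R ^ 2 ≤ N ^ 2 * (C2 * Real.sqrt (h * R)) +
        N ^ 2 * (C1 * Λ * R ^ ((4 : ℝ) / 3)) + C1 * N ^ ((4 : ℝ) / 3) * Λ * R ^ 2 := by
      have g1 : x * R ^ 2 ≤ ν2 * (N * N) * R ^ 2 :=
        mul_le_mul_of_nonneg_right e1 (by positivity)
      have g2 : N ^ 2 * (ν2 * (R * R) - C1 * R ^ ((4 : ℝ) / 3) * Λ) ≤ N ^ 2 * u :=
        mul_le_mul_of_nonneg_left e2 (by positivity)
      have g3 : (ν * (N * N) - C1 * N ^ ((4 : ℝ) / 3) * Λ) * R ^ 2 ≤ y * R ^ 2 :=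
        mul_le_mul_of_nonneg_right e3 (by positivity)
      have g4 : N ^ 2 * v ≤ N ^ 2 * (ν * (R * R)) := mul_le_mul_of_nonneg_left e4 (by positivity)
      have g5 : N ^ 2 * (u - v) ≤ N ^ 2 * (C2 * Real.sqrt (h * R)) :=
        mul_le_mul_of_nonneg_left (by linarith) (by positivity)
      linarith
    have f2 : 0 < R ^ 2 := by positivity
    refine le_of_mul_le_mul_right (f1.trans (le_of_eq ?_)) f2
    field_simp
  have hp : 0 < h ^ (-(2 : ℝ) / 3) := Real.rpow_pos_of_pos (by linarith) _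
  have hq : 0 < N ^ ((4 : ℝ) / 3) := Real.rpow_pos_of_pos hN0 _
  have hs : 0 ≤ Real.sqrt (N * h) := Real.sqrt_nonneg _
  rcases Nat.lt_or_ge n (H / (4 * K)) with hc | hc
  · have hrn' : r = n := by
      rw [hr]
      exact min_eq_right hc.le
    have hRN : R = N := by rw [hR, hN, hrn']
    subst hRN
    have k1 : R ^ 2 * (C2 * (Real.sqrt (h * R) / R ^ 2)) = C2 * Real.sqrt (R * h) := by
      rw [mul_comm h R]
      field_simp
    have k2 : R ^ 2 * (C1 * Λ * (R ^ ((4 : ℝ) / 3) / R ^ 2)) = C1 * Λ * R ^ ((4 : ℝ) / 3) := by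
      field_simp
    rw [k1, k2] at hmain
    generalize R ^ ((4 : ℝ) / 3) = q at *
    generalize Real.sqrt (R * h) = t at *
    generalize h ^ (-(2 : ℝ) / 3) = z at *
    refine hmain.trans ?_
    have m1 : C2 * t ≤ C2 * Λ * t := by
      have : C2 * t * 1 ≤ C2 * t * Λ := mul_le_mul_of_nonneg_left hΛ (by positivity)
      linarith
    have m2 : 0 ≤ (2 * C1 + C1 * (8 * K) + C2 * (8 * K) ^ 2 + C2) * Λ * (R ^ 2 * z) := by
      positivity
    have m3 : 0 ≤ (C1 * (8 * K) + C2 * (8 * K) ^ 2 + C2) * Λ * q := by positivity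
    have m4 : 0 ≤ (2 * C1 + C1 * (8 * K) + C2 * (8 * K) ^ 2) * Λ * t := by positivity
    linarith
  · have hrn' : r = H / (4 * K) := by
      rw [hr]
      exact min_eq_left hc
    have hbig : h ≤ (8 * K) * R := by
      have h1 : H < 4 * K * (r + 1) := by
        rw [hrn']
        exact Nat.lt_mul_div_succ H (by omega)
      have h2 : H ≤ 8 * K * r := by nlinarith
      rw [hh, hR]
      exact_mod_cast h2
    obtain ⟨k1, k2⟩ := CNF50.pow_big (by linarith) hR0 (by linarith : (1 : ℝ) ≤ 8 * K) hbig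
    generalize R ^ ((4 : ℝ) / 3) / R ^ 2 = q1 at *
    generalize Real.sqrt (h * R) / R ^ 2 = q2 at *
    generalize N ^ ((4 : ℝ) / 3) = q at *
    generalize Real.sqrt (N * h) = t at *
    generalize h ^ (-(2 : ℝ) / 3) = z at *
    refine hmain.trans ?_
    have m1 : N ^ 2 * (C2 * q2) ≤ N ^ 2 * (C2 * ((8 * K) ^ 2 * z)) :=
      mul_le_mul_of_nonneg_left (mul_le_mul_of_nonneg_left k2 hC2.le) (by positivity)
    have m1' : N ^ 2 * (C2 * ((8 * K) ^ 2 * z)) * 1 ≤ N ^ 2 * (C2 * ((8 * K) ^ 2 * z)) * Λ :=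
      mul_le_mul_of_nonneg_left hΛ (by positivity)
    have m2 : N ^ 2 * (C1 * Λ * q1) ≤ N ^ 2 * (C1 * Λ * (8 * K * z)) :=
      mul_le_mul_of_nonneg_left (mul_le_mul_of_nonneg_left k1 (by positivity)) (by positivity)
    have m3 : 0 ≤ (C1 + C1 * (8 * K) + C2 * (8 * K) ^ 2 + C2) * Λ * q := by positivity
    have m4 : 0 ≤ (2 * C1 + C1 * (8 * K) + C2 * (8 * K) ^ 2 + C2) * Λ * t := by positivity
    have m5 : 0 ≤ (2 * C1 + C2) * Λ * (N ^ 2 * z) := by positivity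
    linarith

end Pool.SC
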