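import Pool.Agent.H61.SC.Stmts
import Pool.Agent.H61.SC.Ex

/-!
# SC, row IN2: influences, huge heights
-/

namespace Pool.SC

open Finset

namespace IN250

def up (z : ℤ) (v : V) : V := (v.1, v.2.1, v.2.2 + z)

theorem up_up (y z : ℤ) (v : V) : up y (up z v) = up (z + y) v := by
  simp only [up, add_assoc]

theorem up_zero (v : V) : up 0 v = v := by
  simp only [up, add_zero]

theorem up_neg (z : ℤ) (v : V) : up z (up (-z) v) = v := by
  rw [up_up, neg_add_cancel, up_zero]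

theorem up_neg' (z : ℤ) (v : V) : up (-z) (up z v) = v := by
  rw [up_up, add_neg_cancel, up_zero]

/-- the shift of the edges -/
def sh (z : ℤ) : Ed ↪ Ed :=
  ⟨fun e => (e.1, up z e.2), fun e e' h => by
    have h1 := congrArg Prod.fst h
    have h2 := congrArg Prod.snd h
    simp only at h1 h2
    have h3 := congrArg (up (-z)) h2
    rw [up_neg', up_neg'] at h3
    exact Prod.ext h1 h3⟩

theorem sh_sh (z : ℤ) (e : Ed) : sh z (sh (-z) e) = e := by
  show (e.1, up z (up (-z) e.2)) = e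
  rw [up_neg]

theorem hd_sh (z : ℤ) (e : Ed) : hd (sh z e) = up z (hd e) := rfl

theorem tl_sh (z : ℤ) (e : Ed) : tl (sh z e) = up z (tl e) := by
  show up z e.2 + unitv e.1 = up z (e.2 + unitv e.1)
  refine Prod.ext rfl (Prod.ext rfl ?_)
  show e.2.2.2 + z + (unitv e.1).2.2 = e.2.2.2 + (unitv e.1).2.2 + z
  ring

theorem mem_box (R : Rect) (z1 z2 : ℤ) (v : V) : v ∈ box R z1 z2 ↔
    (R.x ≤ v.1 ∧ v.1 < R.x + R.w) ∧ (R.y ≤ v.2.1 ∧ v.2.1 < R.y + R.l) ∧
      z1 ≤ v.2.2 ∧ v.2.2 ≤ z2 := by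
  simp only [box, Finset.mem_product, Finset.mem_Ico, Finset.mem_Icc]

theorem box_up (R : Rect) (z1 z2 z : ℤ) (v : V) :
    up z v ∈ box R (z1 + z) (z2 + z) ↔ v ∈ box R z1 z2 := by
  rw [mem_box, mem_box]
  simp only [up, add_le_add_iff_right]

theorem mem_eds (R : Rect) (z1 z2 : ℤ) (e : Ed) : e ∈ eds R z1 z2 ↔
    hd e ∈ box R z1 z2 ∧ tl e ∈ box R z1 z2 := by
  simp only [eds, Finset.mem_filter, Finset.mem_product, Finset.mem_univ, true_and, hd]

theorem eds_sh (R : Rect) (z1 z2 z : ℤ) (e : Ed) :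
    sh z e ∈ eds R (z1 + z) (z2 + z) ↔ e ∈ eds R z1 z2 := by
  rw [mem_eds, mem_eds, hd_sh, tl_sh, box_up, box_up]

theorem eds_map (R : Rect) (z1 z2 z : ℤ) :
    eds R (z1 + z) (z2 + z) = (eds R z1 z2).map (sh z) := by
  ext e
  rw [Finset.mem_map]
  constructor
  · intro he
    refine ⟨sh (-z) e, ?_, sh_sh z e⟩
    rw [← eds_sh R z1 z2 z, sh_sh]
    exact he
  · rintro ⟨e', he', rfl⟩
    exact (eds_sh R z1 z2 z e').2 he'

theorem mem_cuts (R : Rect) (z1 z2 : ℤ) (S : Set V) (e : Ed) :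
    e ∈ cuts R z1 z2 S ↔ e ∈ eds R z1 z2 ∧ cutE S e := by
  simp only [cuts, Finset.mem_filter]

theorem cuts_map (R : Rect) (z1 z2 z : ℤ) (S : Set V) :
    cuts R (z1 + z) (z2 + z) S = (cuts R z1 z2 (up z ⁻¹' S)).map (sh z) := by
  have hc : ∀ e : Ed, cutE S (sh z e) ↔ cutE (up z ⁻¹' S) e := fun e => by
    unfold cutE
    rw [hd_sh, tl_sh]
    rfl
  ext e
  rw [Finset.mem_map, mem_cuts]
  constructor
  · rintro ⟨h1, h2⟩
    refine ⟨sh (-z) e, ?_, sh_sh z e⟩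
    rw [mem_cuts, ← eds_sh R z1 z2 z, ← hc, sh_sh]
    exact ⟨h1, h2⟩
  · rintro ⟨e', he', rfl⟩
    rw [mem_cuts] at he'
    exact ⟨(eds_sh R z1 z2 z e').2 he'.1, (hc e').2 he'.2⟩

theorem en_map (a b : ℝ) (T : Finset Ed) (R : Rect) (z1 z2 z : ℤ) (S : Set V) :
    en a b (T.map (sh z)) R (z1 + z) (z2 + z) S = en a b T R z1 z2 (up z ⁻¹' S) := by
  unfold en
  rw [cuts_map, Finset.sum_map]
  refine Finset.sum_congr rfl fun e _ => ?_
  simp only [cap, Finset.mem_map']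

theorem adm_map (R : Rect) (z1 z2 z : ℤ) (S : Set V) :
    adm R (z1 + z) (z2 + z) S ↔ adm R z1 z2 (up z ⁻¹' S) := by
  constructor
  · intro h v hv
    have h1 := h (up z v) hv
    refine ⟨fun h2 => h1.1 ?_, fun h2 => h1.2 ?_⟩
    · show v.2.2 + z ≤ z1 + z
      linarith
    · show z2 + z ≤ v.2.2 + z
      linarith
  · intro h v hv
    have h1 := h (up (-z) v) hv
    have h3 : up (-z) v ∈ up z ⁻¹' S ↔ v ∈ S := by
      rw [Set.mem_preimage, up_neg]
    rw [h3] at h1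
    refine ⟨fun h2 => h1.1 ?_, fun h2 => h1.2 ?_⟩
    · show v.2.2 + -z ≤ z1
      linarith
    · show z2 ≤ v.2.2 + -z
      linarith

theorem flow_map (a b : ℝ) (R : Rect) (z1 z2 z : ℤ) (T : Finset Ed) :
    flow a b R (z1 + z) (z2 + z) (T.map (sh z)) = flow a b R z1 z2 T := by
  unfold flow flowC
  congr 1
  ext r
  constructor
  · rintro ⟨S, h1, -, h3⟩
    exact ⟨up z ⁻¹' S, (adm_map R z1 z2 z S).1 h1, trivial, by rw [h3, en_map]⟩
  · rintro ⟨S, h1, -, h3⟩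
    have h4 : up z ⁻¹' (up (-z) ⁻¹' S) = S := by
      ext v
      rw [Set.mem_preimage, Set.mem_preimage, up_neg']
    refine ⟨up (-z) ⁻¹' S, ?_, trivial, ?_⟩
    · rw [adm_map, h4]
      exact h1
    · rw [h3, en_map, h4]

/-- A function of the coordinates in `E`. -/
theorem gr_inter {f : Finset Ed → ℝ} {E : Finset Ed} (hf : ∀ T, f (T ∩ E) = f T) (e : Ed)
    (T : Finset Ed) : gr e f (T ∩ E) = gr e f T := by
  unfold gr
  have h1 : insert e (T ∩ E) ∩ E = insert e T ∩ E := by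
    ext x
    simp only [Finset.mem_inter, Finset.mem_insert]
    tauto
  have h2 : (T ∩ E).erase e ∩ E = T.erase e ∩ E := by
    ext x
    simp only [Finset.mem_inter, Finset.mem_erase]
    tauto
  rw [← hf (insert e (T ∩ E)), ← hf (insert e T), ← hf ((T ∩ E).erase e), ← hf (T.erase e), h1, h2]

theorem gr_out {f : Finset Ed → ℝ} {E : Finset Ed} (hf : ∀ T, f (T ∩ E) = f T) {e : Ed}
    (he : e ∉ E) (T : Finset Ed) : gr e f T = 0 := by
  unfold gr
  have h1 : insert e T ∩ E = T.erase e ∩ E := by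
    ext x
    simp only [Finset.mem_inter, Finset.mem_insert, Finset.mem_erase]
    constructor
    · rintro ⟨h2 | h2, h3⟩
      · rw [h2] at h3
        exact absurd h3 he
      · exact ⟨⟨fun h4 => he (h4 ▸ h3), h2⟩, h3⟩
    · rintro ⟨⟨h2, h3⟩, h4⟩
      exact ⟨Or.inr h3, h4⟩
  rw [← hf (insert e T), ← hf (T.erase e), h1, sub_self]

/-- The influences of the shifted flow. -/
theorem infl_shift {p a b : ℝ} {R : Rect} {H z : ℤ} {F : Finset Ed}
    (hf : ∀ T, flow a b R z (H + z) (T ∩ eds R z (H + z)) = flow a b R z (H + z) T)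
    (hF : eds R z (H + z) ⊆ F) (e : Ed) :
    ex p F (fun T => |gr e (flow a b R z (H + z)) T|) =
      ex p (eds R 0 H) (fun T => |gr (sh (-z) e) (flow a b R 0 H) T|) := by
  rw [ex_restrict (F' := eds R z (H + z)) hF fun s _ => by rw [gr_inter hf]]
  have h0 : eds R z (H + z) = (eds R 0 H).map (sh z) := by
    have := eds_map R 0 H z
    rwa [zero_add] at this
  have h1 : ∀ T, flow a b R z (H + z) (T.map (sh z)) = flow a b R 0 H T := fun T => by
    have := flow_map a b R 0 H z T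
    rwa [zero_add] at this
  rw [h0, ex_map]
  refine ex_congr fun s _ => ?_
  obtain ⟨e', he'⟩ : ∃ e', e' = sh (-z) e := ⟨_, rfl⟩
  have he : e = sh z e' := by rw [he', sh_sh]
  rw [← he', he]
  unfold gr
  rw [← Finset.map_insert, ← Finset.map_erase, h1, h1]

end IN250

open IN250 in
/-- IN2. -/
theorem in2_thm (hC : S_CUT) (hFL : S_FLT) : S_IN2 := by
  classical
  intro p a b hp0 hp1 ha hab
  have hb : 0 < b := ha.trans hab
  have hba : 0 < b - a := by linarith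
  have h1p : 0 < 1 - p := by linarith
  obtain ⟨c, hc⟩ : ∃ c, c = (1 - p)⁻¹ * ((b - a) * (b / a)) := ⟨_, rfl⟩
  have hc0 : 0 < c := by
    rw [hc]
    positivity
  refine ⟨c ^ 2, by positivity, fun n H M hn hH hM => ?_⟩
  obtain ⟨R, hR⟩ : ∃ R, R = sq n n := ⟨_, rfl⟩
  rw [← hR]
  have hRw : (R.w : ℝ) * R.l = (n : ℝ) * n := by rw [hR]; rfl
  have hM0 : (0 : ℝ) < M := by exact_mod_cast hM
  have hcut : ∀ z1 z2 : ℤ, z1 < z2 → _ := fun z1 z2 h => hC a b R z1 z2 (fun _ => True)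
    ((n : ℝ) * n) ha hab h (by
      obtain ⟨S0, h1, h2⟩ := hFL R z1 z2 h
      exact ⟨S0, h1, trivial, by rw [← hRw]; exact h2⟩)
  have hHZ : (0 : ℤ) < (H : ℤ) := by exact_mod_cast hH
  obtain ⟨k1, k2, k3, k4, k5, k6, k7⟩ := hcut 0 H hHZ
  obtain ⟨E0, hE0⟩ : ∃ E0, E0 = eds R 0 (H : ℤ) := ⟨_, rfl⟩
  obtain ⟨q, hq⟩ : ∃ q : Ed → ℝ, q = fun e =>
    ex p (eds R 0 (H : ℤ)) (fun T => |gr e (flow a b R 0 (H : ℤ)) T|) := ⟨_, rfl⟩
  have hq0 : ∀ e, 0 ≤ q e := fun e => by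
    rw [hq]
    exact ex_nonneg hp0.le hp1.le fun s _ => abs_nonneg _
  have hqout : ∀ e, e ∉ E0 → q e = 0 := fun e he => by
    rw [hq]
    show ex p (eds R 0 (H : ℤ)) (fun T => |gr e (flow a b R 0 (H : ℤ)) T|) = 0
    rw [← ex_const p (eds R 0 (H : ℤ)) (0 : ℝ)]
    refine ex_congr fun s _ => ?_
    have h1 : gr e (flow a b R 0 (H : ℤ)) s = 0 :=
      gr_out (f := flow a b R 0 (H : ℤ)) k4 (hE0 ▸ he) s
    rw [h1, abs_zero]
  have hqsum : ∑ e ∈ E0, q e ≤ c * ((n : ℝ) * n) := by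
    have h1 : ∀ e ∈ E0, q e = (1 - p)⁻¹ * ex p E0 (fun s => if e ∈ s then 0 else
        |gr e (flow a b R 0 (H : ℤ)) s|) := fun e he => by
      rw [hq, hE0]
      exact ex_gr (hE0 ▸ he) hp1 _ fun x => |x|
    rw [Finset.sum_congr rfl h1, ← Finset.mul_sum, ← ex_finsum, hc, mul_assoc]
    refine mul_le_mul_of_nonneg_left ?_ (inv_nonneg.2 h1p.le)
    refine ex_le_const hp0.le hp1.le fun s hs => ?_
    obtain ⟨S, hS1, hS2, hS3, hS4⟩ := k1 s
    have h2 : ∀ e ∈ E0, (if e ∈ s then 0 else |gr e (flow a b R 0 (H : ℤ)) s|) ≤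
        if e ∈ cuts R 0 (H : ℤ) S then (b - a) else 0 := fun e he => by
      by_cases hes : e ∈ s
      · rw [if_pos hes]
        split_ifs
        · exact hba.le
        · exact le_rfl
      · rw [if_neg hes]
        by_cases hec : e ∈ cuts R 0 (H : ℤ) S
        · rw [if_pos hec]
          have h3 := k5 e s
          have h4 : 0 ≤ gr e (flow a b R 0 (H : ℤ)) s := h3.1
          rw [abs_of_nonneg h4]
          exact h3.2
        · rw [if_neg hec]
          have h3 : gr e (flow a b R 0 (H : ℤ)) s = 0 := k6 e s S hS1 hS2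
            (by rw [Finset.erase_eq_of_notMem hes]; exact hS3) hec
          rw [h3, abs_zero]
    refine (Finset.sum_le_sum h2).trans ?_
    rw [Finset.sum_ite_mem, Finset.sum_const, nsmul_eq_mul]
    have h3 : ((E0 ∩ cuts R 0 (H : ℤ) S).card : ℝ) ≤ b / a * ((n : ℝ) * n) :=
      le_trans (by exact_mod_cast Finset.card_le_card Finset.inter_subset_right) hS4
    calc ((E0 ∩ cuts R 0 (H : ℤ) S).card : ℝ) * (b - a) ≤ (b / a * ((n : ℝ) * n)) * (b - a) :=
          mul_le_mul_of_nonneg_right h3 hba.le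
      _ = (b - a) * (b / a) * ((n : ℝ) * n) := by ring
  have hqinj : ∀ {ι : Type} (s : Finset ι) (g : ι → Ed), Set.InjOn g s →
      ∑ i ∈ s, q (g i) ≤ c * ((n : ℝ) * n) := by
    intro ι s g hg
    have h1 : ∑ i ∈ s, q (g i) = ∑ e ∈ s.image g, q e := by
      rw [Finset.sum_image hg]
    have h2 : ∑ e ∈ s.image g, q e ≤ ∑ e ∈ E0, q e := by
      have h3 : ∑ e ∈ s.image g, q e = ∑ e ∈ (s.image g) ∩ E0, q e := by
        rw [← Finset.sum_inter_add_sum_sdiff (s.image g) E0]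
        have h4 : ∑ e ∈ s.image g \ E0, q e = 0 :=
          Finset.sum_eq_zero fun e he => hqout e (Finset.mem_sdiff.1 he).2
        rw [h4, add_zero]
      rw [h3]
      exact Finset.sum_le_sum_of_subset_of_nonneg Finset.inter_subset_right
        fun e _ _ => hq0 e
    rw [h1]
    exact h2.trans hqsum
  obtain ⟨F, hF⟩ : ∃ F, F = eds R 0 ((H : ℤ) + M) := ⟨_, rfl⟩
  rw [← hF]
  have hsub : ∀ z ∈ Finset.range M, eds R (z : ℤ) ((H : ℤ) + z) ⊆ F := fun z hz e he => by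
    rw [hF, mem_eds, mem_box, mem_box]
    rw [mem_eds, mem_box, mem_box] at he
    have h1 : ((z : ℕ) : ℤ) < M := by exact_mod_cast Finset.mem_range.1 hz
    obtain ⟨⟨h2, h3, h4, h5⟩, h6, h7, h8, h9⟩ := he
    exact ⟨⟨h2, h3, by omega, by omega⟩, h6, h7, by omega, by omega⟩
  have hinf : ∀ z ∈ Finset.range M, ∀ e, ex p F
      (fun T => |gr e (flow a b R (z : ℤ) ((H : ℤ) + z)) T|) = q (sh (-(z : ℤ)) e) := fun z hz e => by
    obtain ⟨-, -, -, h4, -⟩ := hcut z ((H : ℤ) + z) (by omega)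
    rw [hq]
    exact infl_shift h4 (hsub z hz) e
  obtain ⟨S, hS⟩ : ∃ S, S = c * ((n : ℝ) * n) := ⟨_, rfl⟩
  rw [← hS] at hqsum hqinj
  have hS0 : 0 ≤ S := by
    rw [hS]
    positivity
  obtain ⟨A, hA⟩ : ∃ A : Ed → ℝ, A = fun e => ex p F (fun T => |gr e (fbar a b n H M) T|) :=
    ⟨_, rfl⟩
  have hA0 : ∀ e, 0 ≤ A e := fun e => by
    rw [hA]
    exact ex_nonneg hp0.le hp1.le fun s _ => abs_nonneg _
  have hA1 : ∀ e, A e ≤ (∑ z ∈ Finset.range M, q (sh (-(z : ℤ)) e)) / M := fun e => by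
    have h1 : A e ≤ ex p F (fun T => (∑ z ∈ Finset.range M,
        |gr e (flow a b R (z : ℤ) ((H : ℤ) + z)) T|) / M) := by
      rw [hA]
      refine ex_mono hp0.le hp1.le fun s _ => ?_
      have h2 : gr e (fbar a b n H M) s = (∑ z ∈ Finset.range M,
          gr e (flow a b R (z : ℤ) ((H : ℤ) + z)) s) / M := by
        unfold gr fbar
        rw [← sub_div, ← Finset.sum_sub_distrib, ← hR]
      rw [h2, abs_div, abs_of_pos hM0]
      exact div_le_div_of_nonneg_right (Finset.abs_sum_le_sum_abs _ _) hM0.le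
    refine h1.trans (le_of_eq ?_)
    rw [ex_div, ex_finsum]
    congr 1
    exact Finset.sum_congr rfl fun z hz => hinf z hz e
  have hA2 : ∀ e, A e ≤ S / M := fun e => by
    refine (hA1 e).trans (div_le_div_of_nonneg_right (hqinj _ _ ?_) hM0.le)
    intro z _ z' _ h
    have h1 : e.2.2.2 + -(z : ℤ) = e.2.2.2 + -(z' : ℤ) := congrArg (fun x : Ed => x.2.2.2) h
    have h2 : (z : ℤ) = z' := by linarith
    exact_mod_cast h2
  have hA3 : ∑ e ∈ F, A e ≤ S := by
    have h1 : ∑ e ∈ F, A e ≤ ∑ e ∈ F, (∑ z ∈ Finset.range M, q (sh (-(z : ℤ)) e)) / M :=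
      Finset.sum_le_sum fun e _ => hA1 e
    refine h1.trans ?_
    rw [← Finset.sum_div, Finset.sum_comm, div_le_iff₀ hM0]
    have h2 : ∀ z ∈ Finset.range M, ∑ e ∈ F, q (sh (-(z : ℤ)) e) ≤ S := fun z _ =>
      hqinj F _ ((sh (-(z : ℤ))).injective.injOn)
    refine (Finset.sum_le_sum h2).trans ?_
    rw [Finset.sum_const, Finset.card_range, nsmul_eq_mul, mul_comm]
  calc ∑ e ∈ F, (ex p F (fun T => |gr e (fbar a b n H M) T|)) ^ 2
      = ∑ e ∈ F, A e * A e := by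
        rw [hA]
        exact Finset.sum_congr rfl fun e _ => by rw [pow_two]
    _ ≤ ∑ e ∈ F, A e * (S / M) :=
        Finset.sum_le_sum fun e _ => mul_le_mul_of_nonneg_left (hA2 e) (hA0 e)
    _ = (∑ e ∈ F, A e) * (S / M) := by rw [Finset.sum_mul]
    _ ≤ S * (S / M) := mul_le_mul_of_nonneg_right hA3 (by positivity)
    _ = c ^ 2 * (n : ℝ) ^ 4 / M := by
        rw [hS]
        ring

end Pool.SC
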